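import Pool.Agent.H634R2.GraphDefs

/-!
# The unweighted red-blue s-t cut problem in undirected graphs
-/

namespace Pool.Agent.U16.RB

open Pool.Agent.NPC Pool.Agent.NPC.H634R2

/-- A graph whose edges are coloured red or blue, given by the list of its vertices, the list of
its red edges and the list of its blue edges. -/
abbrev Graph : Type := List ℕ × List (ℕ × ℕ) × List (ℕ × ℕ)

/-- An instance: a coloured graph, the pair `(s, t)` of terminals, and the pair `(r, b)` of
bounds. -/
abbrev Inst : Type := Graph × (ℕ × ℕ) × (ℕ × ℕ)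

/-- The lists describe a finite simple undirected graph each of whose edges is coloured red or
blue: vertices are listed once, every edge joins two distinct vertices and is listed once in all
(as `(u, v)` or as `(v, u)`, in exactly one of the two lists); the terminals are two distinct
vertices. -/
def Valid (I : Inst) : Prop :=
  IsGraph I.1.1 (I.1.2.1 ++ I.1.2.2) ∧ I.2.1.1 ∈ I.1.1 ∧ I.2.1.2 ∈ I.1.1 ∧ I.2.1.1 ≠ I.2.1.2

/-- The number of edges in the list `E` with exactly one endpoint in `X`. -/
def cutSize (X : Finset ℕ) (E : List (ℕ × ℕ)) : ℕ :=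
  E.countP (fun e => decide (¬ (e.1 ∈ X ↔ e.2 ∈ X)))

/-- The unweighted red-blue `s`-`t` cut problem: is there a set `X` of vertices, containing `s` but
not `t`, such that at most `r` red edges and at most `b` blue edges have exactly one endpoint in
`X`? -/
def RedBlueCut (I : Inst) : Prop :=
  Valid I ∧ ∃ X : Finset ℕ, (∀ v ∈ X, v ∈ I.1.1) ∧ I.2.1.1 ∈ X ∧ I.2.1.2 ∉ X ∧
    cutSize X I.1.2.1 ≤ I.2.2.1 ∧ cutSize X I.1.2.2 ≤ I.2.2.2

end Pool.Agent.U16.RB
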