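import Pool.Agent.U16.RB.Defs
import Pool.Agent.H634R2.Clique
import Pool.Agent.R544.Util

/-!
# The unweighted red-blue s-t cut problem is NP-complete
-/

set_option autoImplicit false

namespace Pool.Agent.U16.RB

open Pool.Agent.NPC Pool.Agent.NPC.H634R2 Pool.Agent.R544

/-! ### The reduction -/

/-- the three red edges at the node of an edge -/
def star (p : (ℕ × ℕ) × ℕ) : List (ℕ × ℕ) :=
  [(0, 2 * p.2 + 3), (2 * p.1.1 + 2, 2 * p.2 + 3), (2 * p.1.2 + 2, 2 * p.2 + 3)]

/-- the red edges -/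
def redE (E : List (ℕ × ℕ)) : List (ℕ × ℕ) := E.zipIdx.flatMap star

/-- the blue edges -/
def blueE (V : List ℕ) : List (ℕ × ℕ) := V.map (fun v => (2 * v + 2, 1))

/-- the vertices -/
def verts (V : List ℕ) (E : List (ℕ × ℕ)) : List ℕ :=
  0 :: 1 :: (V.map (fun v => 2 * v + 2) ++ E.zipIdx.map (fun p => 2 * p.2 + 3))

/-- the instance for a graph and a number `k` -/
def inst (I : (List ℕ × List (ℕ × ℕ)) × ℕ) : Inst :=
  if I.2 * (I.2 - 1) / 2 ≤ I.1.2.length then
    ((verts I.1.1 I.1.2, redE I.1.2, blueE I.1.1), (0, 1),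
      (I.1.2.length - I.2 * (I.2 - 1) / 2, I.2))
  else (([0, 1], [(0, 1)], []), (0, 1), (0, 0))

/-- the number of edges of a list without both endpoints in `U` -/
def outside (U : Finset ℕ) (E : List (ℕ × ℕ)) : ℕ :=
  E.countP (fun e => decide (¬ (e.1 ∈ U ∧ e.2 ∈ U)))

theorem inside_add_outside (U : Finset ℕ) (E : List (ℕ × ℕ)) :
    inside E U + outside U E = E.length := by
  unfold inside outside
  induction E with
  | nil => rfl
  | cons e E ih =>
    simp only [List.countP_cons, List.length_cons]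
    by_cases h : e.1 ∈ U <;> by_cases h' : e.2 ∈ U <;> simp [h, h'] at ih ⊢ <;> omega

theorem outside_zipIdx (U : Finset ℕ) (E : List (ℕ × ℕ)) :
    outside U E = E.zipIdx.countP (fun p => decide (¬ (p.1.1 ∈ U ∧ p.1.2 ∈ U))) := by
  unfold outside
  have h : E = E.zipIdx.map Prod.fst := by simp
  conv_lhs => rw [h]
  rw [List.countP_map]
  rfl

theorem red_ge (X U : Finset ℕ) (h0 : 0 ∈ X)
    (L : List ((ℕ × ℕ) × ℕ)) (hL : ∀ p ∈ L, (2 * p.1.1 + 2 ∈ X → p.1.1 ∈ U) ∧
      (2 * p.1.2 + 2 ∈ X → p.1.2 ∈ U)) :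
    L.countP (fun p => decide (¬ (p.1.1 ∈ U ∧ p.1.2 ∈ U))) ≤ cutSize X (L.flatMap star) := by
  unfold cutSize
  induction L with
  | nil => simp
  | cons p L ih =>
    have ih' := ih (fun q hq => hL q (List.mem_cons_of_mem _ hq))
    have hp := hL p (by simp)
    simp only [List.flatMap_cons, List.countP_append, List.countP_cons]
    have key : (if decide (¬ (p.1.1 ∈ U ∧ p.1.2 ∈ U)) = true then 1 else 0) ≤
        (star p).countP (fun e => decide (¬ (e.1 ∈ X ↔ e.2 ∈ X))) := by
      unfold star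
      simp only [List.countP_cons, List.countP_nil]
      by_cases h1 : p.1.1 ∈ U
      · by_cases h2 : p.1.2 ∈ U
        · simp [h1, h2]
        · have h3 : 2 * p.1.2 + 2 ∉ X := fun h => h2 (hp.2 h)
          by_cases h4 : 2 * p.2 + 3 ∈ X <;> simp [h1, h2, h3, h4, h0]
      · have h3 : 2 * p.1.1 + 2 ∉ X := fun h => h1 (hp.1 h)
        by_cases h4 : 2 * p.2 + 3 ∈ X <;> simp [h1, h3, h4, h0]
    omega

theorem red_eq (X U : Finset ℕ) (h0 : 0 ∈ X) (L : List ((ℕ × ℕ) × ℕ))
    (hL : ∀ p ∈ L, (2 * p.1.1 + 2 ∈ X ↔ p.1.1 ∈ U) ∧ (2 * p.1.2 + 2 ∈ X ↔ p.1.2 ∈ U) ∧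
      (2 * p.2 + 3 ∈ X ↔ p.1.1 ∈ U ∨ p.1.2 ∈ U)) :
    cutSize X (L.flatMap star) = L.countP (fun p => decide (¬ (p.1.1 ∈ U ∧ p.1.2 ∈ U))) := by
  unfold cutSize
  induction L with
  | nil => simp
  | cons p L ih =>
    have ih' := ih (fun q hq => hL q (List.mem_cons_of_mem _ hq))
    obtain ⟨hp1, hp2, hp3⟩ := hL p (by simp)
    simp only [List.flatMap_cons, List.countP_append, List.countP_cons]
    have key : (star p).countP (fun e => decide (¬ (e.1 ∈ X ↔ e.2 ∈ X))) =
        (if decide (¬ (p.1.1 ∈ U ∧ p.1.2 ∈ U)) = true then 1 else 0) := by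
      unfold star
      simp only [List.countP_cons, List.countP_nil, hp1, hp2, hp3, h0]
      by_cases h1 : p.1.1 ∈ U <;> by_cases h2 : p.1.2 ∈ U <;> simp [h1, h2]
    omega

theorem blue_eq (X : Finset ℕ) (h1 : 1 ∉ X) (V : List ℕ) (hV : V.Nodup) :
    cutSize X (blueE V) = (V.toFinset.filter (fun v => 2 * v + 2 ∈ X)).card := by
  have h : (V.toFinset.filter (fun v => 2 * v + 2 ∈ X)) =
      (V.filter (fun v => decide (2 * v + 2 ∈ X))).toFinset := by
    ext v
    simp
  rw [h, List.toFinset_card_of_nodup (hV.filter _), ← List.countP_eq_length_filter]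
  unfold cutSize blueE
  rw [List.countP_map]
  congr 1
  funext v
  by_cases hv : 2 * v + 2 ∈ X <;> simp [h1, hv]

theorem choose_eq (k : ℕ) : k * (k - 1) / 2 = k.choose 2 := (choose_two_eq k).symm

theorem mem_zipIdx_lt {E : List (ℕ × ℕ)} {p : (ℕ × ℕ) × ℕ} (h : p ∈ E.zipIdx) :
    p.2 < E.length ∧ p.1 ∈ E := by
  obtain ⟨e, i⟩ := p
  rw [List.mem_zipIdx_iff_getElem?] at h
  obtain ⟨h1, h2⟩ := List.getElem?_eq_some_iff.1 h
  exact ⟨h1, h2 ▸ List.getElem_mem h1⟩

theorem zipIdx_snd_inj {E : List (ℕ × ℕ)} {p q : (ℕ × ℕ) × ℕ} (hp : p ∈ E.zipIdx)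
    (hq : q ∈ E.zipIdx) (h : p.2 = q.2) : p = q := by
  obtain ⟨e, i⟩ := p
  obtain ⟨e', j⟩ := q
  rw [List.mem_zipIdx_iff_getElem?] at hp hq
  simp only at h hp hq
  subst h
  rw [hp] at hq
  rw [Option.some.inj hq]

theorem mem_redE {E : List (ℕ × ℕ)} {e : ℕ × ℕ} : e ∈ redE E ↔ ∃ p ∈ E.zipIdx,
    e = (0, 2 * p.2 + 3) ∨ e = (2 * p.1.1 + 2, 2 * p.2 + 3) ∨
      e = (2 * p.1.2 + 2, 2 * p.2 + 3) := by
  unfold redE star
  simp only [List.mem_flatMap, List.mem_cons, List.not_mem_nil, or_false]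

theorem isGraph_inst {V : List ℕ} {E : List (ℕ × ℕ)} (h : IsGraph V E) :
    IsGraph (verts V E) (redE E ++ blueE V) := by
  refine ⟨?_, ?_, ?_⟩
  · unfold verts
    have hb : (V.map (fun v => 2 * v + 2)).Nodup :=
      h.1.map (fun a b hab => by omega)
    have hc : (E.zipIdx.map (fun p => 2 * p.2 + 3)).Nodup := by
      have h2 : (E.zipIdx.map (fun p => 2 * p.2 + 3)) =
          (List.range E.length).map (fun i => 2 * i + 3) := by
        apply List.ext_getElem <;> simp
      rw [h2]
      exact List.nodup_range.map (fun a b hab => by omega)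
    rw [List.nodup_cons, List.nodup_cons, List.nodup_append]
    refine ⟨?_, ?_, hb, hc, ?_⟩
    · simp only [List.mem_cons, List.mem_append, List.mem_map, not_or]
      refine ⟨by omega, ?_, ?_⟩
      · rintro ⟨a, _, ha⟩; omega
      · rintro ⟨a, _, ha⟩; omega
    · simp only [List.mem_append, List.mem_map, not_or]
      refine ⟨?_, ?_⟩
      · rintro ⟨a, _, ha⟩; omega
      · rintro ⟨a, _, ha⟩; omega
    · intro a ha b hb' hab
      simp only [List.mem_map] at ha hb'
      obtain ⟨x, _, hx⟩ := ha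
      obtain ⟨y, _, hy⟩ := hb'
      omega
  · intro e he
    rw [List.mem_append] at he
    unfold verts
    simp only [List.mem_cons, List.mem_append, List.mem_map]
    rcases he with he | he
    · obtain ⟨p, hp, he⟩ := mem_redE.1 he
      have hpE := (mem_zipIdx_lt hp).2
      have hpV := h.2.1 _ hpE
      rcases he with rfl | rfl | rfl
      · exact ⟨Or.inl rfl, Or.inr (Or.inr (Or.inr ⟨p, hp, rfl⟩)), by simp only; omega⟩
      · exact ⟨Or.inr (Or.inr (Or.inl ⟨_, hpV.1, rfl⟩)), Or.inr (Or.inr (Or.inr ⟨p, hp, rfl⟩)),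
          by simp only; omega⟩
      · exact ⟨Or.inr (Or.inr (Or.inl ⟨_, hpV.2.1, rfl⟩)), Or.inr (Or.inr (Or.inr ⟨p, hp, rfl⟩)),
          by simp only; omega⟩
    · unfold blueE at he
      rw [List.mem_map] at he
      obtain ⟨v, hv, rfl⟩ := he
      exact ⟨Or.inr (Or.inr (Or.inl ⟨v, hv, rfl⟩)), Or.inr (Or.inl rfl), by simp only; omega⟩
  · rw [List.map_append, List.nodup_append]
    refine ⟨?_, ?_, ?_⟩
    · unfold redE
      rw [List.map_flatMap, List.nodup_flatMap]
      refine ⟨?_, ?_⟩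
      · intro p hp
        have hpV := h.2.1 _ (mem_zipIdx_lt hp).2
        have hne := hpV.2.2
        unfold star
        simp only [List.map_cons, List.map_nil, List.nodup_cons, List.mem_cons, List.not_mem_nil,
          or_false, not_or, Sym2.eq_iff, not_false_eq_true, List.nodup_nil, and_true]
        refine ⟨⟨?_, ?_⟩, ?_⟩ <;> omega
      · have h3 : E.zipIdx.Nodup := by
          have : (E.zipIdx.map Prod.snd).Nodup := by
            rw [List.zipIdx_map_snd]
            exact List.nodup_range'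
          exact List.Nodup.of_map _ this
        refine List.Pairwise.imp_of_mem ?_ h3
        intro p q hp hq hpq
        rw [Function.onFun, List.disjoint_left]
        intro a ha hb
        have hne : p.2 ≠ q.2 := fun hh => hpq (zipIdx_snd_inj hp hq hh)
        unfold star at ha hb
        simp only [List.map_cons, List.map_nil, List.mem_cons, List.not_mem_nil, or_false] at ha hb
        rcases ha with rfl | rfl | rfl <;> rcases hb with hb | hb | hb <;>
          (rw [Sym2.eq_iff] at hb; omega)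
    · unfold blueE
      rw [List.map_map]
      refine h.1.map (fun a b hab => ?_)
      simp only [Function.comp, Sym2.eq_iff] at hab
      omega
    · intro a ha b hb hab
      subst hab
      rw [List.mem_map] at ha hb
      obtain ⟨e, he, rfl⟩ := ha
      obtain ⟨e', he', hee⟩ := hb
      obtain ⟨p, hp, he⟩ := mem_redE.1 he
      unfold blueE at he'
      rw [List.mem_map] at he'
      obtain ⟨v, hv, rfl⟩ := he'
      rcases he with rfl | rfl | rfl <;> (rw [Sym2.eq_iff] at hee; simp only at hee; omega)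

theorem inst_correct {I : (List ℕ × List (ℕ × ℕ)) × ℕ} (h : IsGraph I.1.1 I.1.2)
    (hk : 2 ≤ I.2) : CLIQUE I ↔ RedBlueCut (inst I) := by
  obtain ⟨⟨V, E⟩, k⟩ := I
  simp only at h hk
  have h1 : CLIQUE ((V, E), k) ↔ ∃ U : Finset ℕ, (∀ v ∈ U, v ∈ V) ∧ U.card ≤ k ∧
      k.choose 2 ≤ inside E U := by
    rw [← hasClique_iff h hk]
    exact ⟨fun hh => hh.2, fun hh => ⟨h, hh⟩⟩
  rw [h1]
  unfold inst
  simp only [choose_eq]
  by_cases hc : k.choose 2 ≤ E.length
  · rw [if_pos hc]
    constructor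
    · rintro ⟨U, hUV, hUk, hU⟩
      refine ⟨⟨isGraph_inst h, by simp [verts], by simp [verts], by simp⟩, ?_⟩
      classical
      refine ⟨(verts V E).toFinset.filter (fun x => x = 0 ∨ (∃ v ∈ U, x = 2 * v + 2) ∨
        ∃ p ∈ E.zipIdx, x = 2 * p.2 + 3 ∧ (p.1.1 ∈ U ∨ p.1.2 ∈ U)), ?_, ?_, ?_, ?_, ?_⟩
      · intro v hv
        simpa using (Finset.mem_filter.1 hv).1
      · simp [verts]
      · simp only [Finset.mem_filter, not_and, not_or]
        intro _
        refine ⟨by omega, ?_, ?_⟩
        · rintro ⟨v, _, hv⟩; omega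
        · rintro ⟨p, _, hp, _⟩; omega
      · change cutSize _ (E.zipIdx.flatMap star) ≤ _
        rw [red_eq _ U, ← outside_zipIdx]
        · have := inside_add_outside U E
          change _ ≤ E.length - k.choose 2
          omega
        · simp [verts]
        · intro p hp
          have hpE := mem_zipIdx_lt hp
          have hpV := h.2.1 _ hpE.2
          have hv : ∀ v ∈ V, (2 * v + 2 ∈ (verts V E).toFinset.filter (fun x => x = 0 ∨
              (∃ v ∈ U, x = 2 * v + 2) ∨ ∃ p ∈ E.zipIdx, x = 2 * p.2 + 3 ∧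
                (p.1.1 ∈ U ∨ p.1.2 ∈ U)) ↔ v ∈ U) := by
            intro v hv
            rw [Finset.mem_filter]
            constructor
            · rintro ⟨_, hh | ⟨w, hw, hh⟩ | ⟨q, _, hh, _⟩⟩
              · omega
              · have : v = w := by omega
                rwa [this]
              · omega
            · intro hvU
              refine ⟨?_, Or.inr (Or.inl ⟨v, hvU, rfl⟩)⟩
              simp only [verts, List.mem_toFinset, List.mem_cons, List.mem_append, List.mem_map]
              exact Or.inr (Or.inr (Or.inl ⟨v, hv, rfl⟩))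
          refine ⟨hv _ hpV.1, hv _ hpV.2.1, ?_⟩
          rw [Finset.mem_filter]
          constructor
          · rintro ⟨_, hh | ⟨w, hw, hh⟩ | ⟨q, hq, hh, hqU⟩⟩
            · omega
            · omega
            · have : p = q := zipIdx_snd_inj hp hq (by omega)
              rwa [this]
          · intro hpU
            refine ⟨?_, Or.inr (Or.inr ⟨p, hp, rfl, hpU⟩)⟩
            simp only [verts, List.mem_toFinset, List.mem_cons, List.mem_append, List.mem_map]
            exact Or.inr (Or.inr (Or.inr ⟨p, hp, rfl⟩))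
      · change cutSize _ (blueE V) ≤ _
        rw [blue_eq _ _ V h.1]
        · refine (Finset.card_le_card ?_).trans hUk
          intro v hv
          simp only [Finset.mem_filter] at hv
          obtain ⟨_, _, hh | ⟨w, hw, hh⟩ | ⟨q, _, hh, _⟩⟩ := hv
          · omega
          · have : v = w := by omega
            rwa [this]
          · omega
        · simp only [Finset.mem_filter, not_and, not_or]
          intro _
          refine ⟨by omega, ?_, ?_⟩
          · rintro ⟨v, _, hv⟩; omega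
          · rintro ⟨p, _, hp, _⟩; omega
    · rintro ⟨_, X, hX, h0, h1', hr, hb⟩
      simp only at hX h0 h1' hr hb
      refine ⟨V.toFinset.filter (fun v => 2 * v + 2 ∈ X), ?_, ?_, ?_⟩
      · intro v hv
        simpa using (Finset.mem_filter.1 hv).1
      · rw [← blue_eq X h1' V h.1]
        exact hb
      · have h2 := red_ge X (V.toFinset.filter (fun v => 2 * v + 2 ∈ X)) h0 E.zipIdx (by
            intro p hp
            have hpV := h.2.1 _ (mem_zipIdx_lt hp).2
            refine ⟨fun hh => ?_, fun hh => ?_⟩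
            · rw [Finset.mem_filter]
              exact ⟨by simpa using hpV.1, hh⟩
            · rw [Finset.mem_filter]
              exact ⟨by simpa using hpV.2.1, hh⟩)
        rw [← outside_zipIdx] at h2
        have h3 := inside_add_outside (V.toFinset.filter (fun v => 2 * v + 2 ∈ X)) E
        change cutSize X (E.zipIdx.flatMap star) ≤ _ at hr
        omega
  · rw [if_neg hc]
    constructor
    · rintro ⟨U, _, _, hU⟩
      have h3 := inside_add_outside U E
      omega
    · rintro ⟨_, X, hX, h0, h1', hr, hb⟩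
      simp only at h0 h1' hr
      simp [cutSize, h0, h1'] at hr

theorem inst_poly : NPC.Poly inst := by
  unfold inst verts redE blueE star
  fun_prop

theorem valid_inst {I : (List ℕ × List (ℕ × ℕ)) × ℕ} (h : IsGraph I.1.1 I.1.2) :
    Valid (inst I) := by
  unfold inst
  split_ifs
  · exact ⟨isGraph_inst h, by simp [verts], by simp [verts], by simp⟩
  · refine ⟨⟨by decide, ?_, by simp⟩, by simp, by simp, by simp⟩
    intro e he
    simp only [List.append_nil, List.mem_cons, List.not_mem_nil, or_false] at he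
    subst he
    simp

theorem hardPr : HardPr Valid RedBlueCut :=
  hardPr_CLIQUE.trans inst_poly (fun _ h => valid_inst h.1) fun _ h => inst_correct h.1 h.2

/-! ### Membership in NP -/

/-- The test of a certificate, the list of the vertices in `X`. -/
def Ver (I : Inst) (w : List ℕ) : Prop :=
  Valid I ∧ (∀ v ∈ w, v ∈ I.1.1) ∧ I.2.1.1 ∈ w ∧ I.2.1.2 ∉ w ∧
    I.1.2.1.countP (fun e => decide (¬ (e.1 ∈ w ↔ e.2 ∈ w))) ≤ I.2.2.1 ∧
    I.1.2.2.countP (fun e => decide (¬ (e.1 ∈ w ↔ e.2 ∈ w))) ≤ I.2.2.2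

theorem pp_isGraph {α : Type} [TEnc α] {V : α → List ℕ} {E : α → List (ℕ × ℕ)}
    (hV : NPC.Poly V) (hE : NPC.Poly E) : PP (fun a => IsGraph (V a) (E a)) := by
  refine PP.congr (p := fun a => (V a).Nodup ∧ (∀ e ∈ E a, e.1 ∈ V a ∧ e.2 ∈ V a ∧ e.1 ≠ e.2) ∧
    (E a).Pairwise (fun e e' => ¬ (e.1 = e'.1 ∧ e.2 = e'.2) ∧ ¬ (e.1 = e'.2 ∧ e.2 = e'.1))) ?_ ?_
  · refine PP.and (Pool.Agent.Y592.OP.pp_nodup hV) (PP.and ?_ ?_)
    · exact PP.ball (r := fun a (e : ℕ × ℕ) => e.1 ∈ V a ∧ e.2 ∈ V a ∧ e.1 ≠ e.2) hE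
        (PP.and (PP.mem (by fun_prop) (by fun_prop))
        (PP.and (PP.mem (by fun_prop) (by fun_prop)) (PP.ne (by fun_prop) (by fun_prop))))
    · exact Pool.Agent.Y592.OP.pp_pairwise hE (R := fun (e e' : ℕ × ℕ) =>
        ¬ (e.1 = e'.1 ∧ e.2 = e'.2) ∧ ¬ (e.1 = e'.2 ∧ e.2 = e'.1))
        (PP.and (PP.not (PP.and (PP.eq (by fun_prop) (by fun_prop))
          (PP.eq (by fun_prop) (by fun_prop)))) (PP.not (PP.and
          (PP.eq (by fun_prop) (by fun_prop)) (PP.eq (by fun_prop) (by fun_prop)))))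
  · intro a
    unfold IsGraph
    refine and_congr_right fun _ => and_congr_right fun _ => ?_
    rw [List.Nodup, List.pairwise_map]
    refine List.Pairwise.iff ?_ 
    intro e e'
    rw [ne_eq, Sym2.eq_iff, not_or]

theorem poly_test {α : Type} [TEnc α] {E : α → List (ℕ × ℕ)} {w : α → List ℕ}
    (hE : NPC.Poly E) (hw : NPC.Poly w) :
    NPC.Poly (fun a => (E a).countP (fun e => decide (¬ (e.1 ∈ w a ↔ e.2 ∈ w a)))) := by
  have h : NPC.Poly (fun a => (E a).countP
      (fun e => (decide (e.1 ∈ w a) ^^ decide (e.2 ∈ w a)))) := by fun_prop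
  refine h.congr fun a => ?_
  congr 1
  funext e
  by_cases h1 : e.1 ∈ w a <;> by_cases h2 : e.2 ∈ w a <;> simp [h1, h2]

theorem pp_ver : PP (fun x : Inst × List ℕ => Ver x.1 x.2) := by
  unfold Ver Valid
  refine PP.and (PP.and (pp_isGraph (by fun_prop) (by fun_prop)) (PP.and
    (PP.mem (by fun_prop) (by fun_prop)) (PP.and (PP.mem (by fun_prop) (by fun_prop))
    (PP.ne (by fun_prop) (by fun_prop))))) (PP.and ?_ (PP.and (PP.mem (by fun_prop) (by fun_prop))
    (PP.and (PP.not (PP.mem (by fun_prop) (by fun_prop))) (PP.and ?_ ?_))))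
  · exact PP.ball (l := fun x : Inst × List ℕ => x.2) (r := fun x v => v ∈ x.1.1.1)
      (by fun_prop) (PP.mem (by fun_prop) (by fun_prop))
  · exact PP.le (poly_test (by fun_prop) (by fun_prop)) (by fun_prop)
  · exact PP.le (poly_test (by fun_prop) (by fun_prop)) (by fun_prop)

theorem inNPP : InNPP RedBlueCut := by
  refine inNPP_of_pp pp_ver Polynomial.X ?_ ?_
  · rintro I ⟨hI, X, hX, hs, ht, hr, hb⟩
    refine ⟨I.1.1.filter (fun v => decide (v ∈ X)), ?_, hI, ?_, ?_, ?_, ?_, ?_⟩
    · rw [Polynomial.eval_X]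
      refine (sz_sublist List.filter_sublist).trans ?_
      obtain ⟨⟨a, b⟩, c⟩ := I
      simp
      omega
    · intro v hv
      exact (List.mem_filter.1 hv).1
    · simp [hs, hX _ hs]
    · simp [ht]
    · refine le_trans (le_of_eq ?_) hr
      unfold cutSize
      refine List.countP_congr fun e he => ?_
      have := hI.1.2.1 e (List.mem_append_left _ he)
      simp [this.1, this.2.1]
    · refine le_trans (le_of_eq ?_) hb
      unfold cutSize
      refine List.countP_congr fun e he => ?_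
      have := hI.1.2.1 e (List.mem_append_right _ he)
      simp [this.1, this.2.1]
  · rintro I w ⟨hI, hw, hs, ht, hr, hb⟩
    refine ⟨hI, w.toFinset, ?_, ?_, ?_, ?_, ?_⟩
    · intro v hv
      exact hw v (by simpa using hv)
    · simpa using hs
    · simpa using ht
    · simpa [cutSize] using hr
    · simpa [cutSize] using hb

end Pool.Agent.U16.RB
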